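import Pool.Agent.R745.CDX.Defs

/-! XS2B: pairs two coordinates down, pure letters at the second coordinate. -/

set_option autoImplicit false

namespace R745CDX

open Finset H825CD

namespace XS2B

theorem sup' {ι : Type} [Fintype ι] [DecidableEq ι] {Q : ℕ} {S : Finset ι}
    {A A1 : Finset (ι → Fin (Q + 1))} (hA : Sup S A) (hA1 : A1 ⊆ A) (j i : ι) :
    Sup ((S.erase j).erase i) (A1.image (fun a => er i (er j a))) := by
  intro a' ha' k hk
  obtain ⟨a, ha, rfl⟩ := Finset.mem_image.mp ha'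
  by_cases h1 : k = i
  · subst h1; simp [er]
  · by_cases h2 : k = j
    · subst h2; simp [er, h1]
    · have h3 : k ∉ S := fun h => hk (Finset.mem_erase.mpr ⟨h1, Finset.mem_erase.mpr ⟨h2, h⟩⟩)
      simp [er, h1, h2, hA a (hA1 ha) k h3]

/-- both coordinates different: distance drops by 2 -/
theorem d2 (h : S_dist) {ι : Type} [Fintype ι] [DecidableEq ι] {Q : ℕ} {j i : ι} (hij : i ≠ j)
    {a b : ι → Fin (Q + 1)} {δ : ℕ} (hd : hammingDist a b = δ) (hj : a j ≠ b j) (hi : a i ≠ b i) :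
    hammingDist (er i (er j a)) (er i (er j b)) + 2 = δ := by
  have e1 : er j a i = a i := by simp [er, hij]
  have e2 : er j b i = b i := by simp [er, hij]
  have s1 := (h ι Q j a b).1 hj
  have s2 := (h ι Q i (er j a) (er j b)).1 (by rw [e1, e2]; exact hi)
  omega

theorem d1i (h : S_dist) {ι : Type} [Fintype ι] [DecidableEq ι] {Q : ℕ} {j i : ι} (hij : i ≠ j)
    {a b : ι → Fin (Q + 1)} {δ : ℕ} (hd : hammingDist a b = δ) (hj : a j ≠ b j) (hi : a i = b i) :
    hammingDist (er i (er j a)) (er i (er j b)) + 1 = δ := by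
  have e1 : er j a i = a i := by simp [er, hij]
  have e2 : er j b i = b i := by simp [er, hij]
  have s1 := (h ι Q j a b).1 hj
  have s2 := (h ι Q i (er j a) (er j b)).2 (by rw [e1, e2]; exact hi)
  omega

theorem d1j (h : S_dist) {ι : Type} [Fintype ι] [DecidableEq ι] {Q : ℕ} {j i : ι} (hij : i ≠ j)
    {a b : ι → Fin (Q + 1)} {δ : ℕ} (hd : hammingDist a b = δ) (hj : a j = b j) (hi : a i ≠ b i) :
    hammingDist (er i (er j a)) (er i (er j b)) + 1 = δ := by
  have e1 : er j a i = a i := by simp [er, hij]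
  have e2 : er j b i = b i := by simp [er, hij]
  have s1 := (h ι Q j a b).2 hj
  have s2 := (h ι Q i (er j a) (er j b)).1 (by rw [e1, e2]; exact hi)
  omega

end XS2B

open XS2B

theorem tX_s2b (h : S_dist) : X_s2b := by
  intro ι _ _ Q S δ M A B hC j hj i hi hij x y hx hy
  have hxu : x ∈ used A j ∧ x ∈ used B j := by
    have : x ∈ com A B j := by rw [hx]; exact Finset.mem_singleton_self x
    exact Finset.mem_inter.1 this
  have hyu : y ∈ used A i ∧ y ∈ used B i := Finset.mem_inter.1 hy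
  obtain ⟨a0, ha0, ha0x⟩ := Finset.mem_image.1 hxu.1
  obtain ⟨b0, hb0, hb0y⟩ := Finset.mem_image.1 hyu.2
  -- letters of A at j different from x are pure
  have hpure : ∀ a ∈ A, a j ≠ x → ∀ b ∈ B, a j ≠ b j := by
    intro a ha hax b hb he
    have h1 : a j ∈ com A B j := Finset.mem_inter.2
      ⟨Finset.mem_image.2 ⟨a, ha, rfl⟩, Finset.mem_image.2 ⟨b, hb, he.symm⟩⟩
    rw [hx, Finset.mem_singleton] at h1
    exact hax h1
  have hpurB : ∀ b ∈ B, b i ∈ pur B A i → ∀ a ∈ A, a i ≠ b i := by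
    intro b hb hbi a ha he
    exact (Finset.mem_sdiff.1 hbi).2 (Finset.mem_image.2 ⟨a, ha, he⟩)
  set A1 := (A.filter (fun a => a j ≠ x ∧ a i = y)).image (fun a => er i (er j a)) with hA1
  set A2 := (A.filter (fun a => a j ≠ x ∧ a i ≠ y)).image (fun a => er i (er j a)) with hA2
  set B1 := (B.filter (fun a => a j = x ∧ a i ∈ pur B A i)).image
    (fun a => er i (er j a)) with hB1
  set B2 := (B.filter (fun a => a j ≠ x ∧ a i ∈ pur B A i)).image
    (fun a => er i (er j a)) with hB2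
  have dA : Disjoint A1 A2 := by
    rw [Finset.disjoint_left]
    intro c hc1 hc2
    obtain ⟨a, ha, rfl⟩ := Finset.mem_image.1 hc1
    obtain ⟨a', ha', he⟩ := Finset.mem_image.1 hc2
    rw [Finset.mem_filter] at ha ha'
    have k1 := d1i h hij (hC.dist a ha.1 b0 hb0) (hpure a ha.1 ha.2.1 b0 hb0)
      (by rw [ha.2.2]; exact hb0y.symm)
    have k2 := d2 h hij (hC.dist a' ha'.1 b0 hb0) (hpure a' ha'.1 ha'.2.1 b0 hb0)
      (fun e => ha'.2.2 (e.trans hb0y))
    rw [he] at k2
    omega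
  have dB : Disjoint B1 B2 := by
    rw [Finset.disjoint_left]
    intro c hc1 hc2
    obtain ⟨b, hb, rfl⟩ := Finset.mem_image.1 hc1
    obtain ⟨b', hb', he⟩ := Finset.mem_image.1 hc2
    rw [Finset.mem_filter] at hb hb'
    have k1 := d1j h hij (hC.dist a0 ha0 b hb.1) (by rw [hb.2.1]; exact ha0x)
      (hpurB b hb.1 hb.2.2 a0 ha0)
    have k2 := d2 h hij (hC.dist a0 ha0 b' hb'.1) (fun e => hb'.2.1 (e.symm.trans ha0x))
      (hpurB b' hb'.1 hb'.2.2 a0 ha0)
    rw [he] at k2
    omega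
  have cA : z10 A j i x y + z11 A j i x y = (A1 ∪ A2).card :=
    (Finset.card_union_of_disjoint dA).symm
  have cB : e01 B j i x (pur B A i) + e11 B j i x (pur B A i) = (B1 ∪ B2).card :=
    (Finset.card_union_of_disjoint dB).symm
  rw [cA, cB]
  refine hC.ih2 j hj i hi hij (A1 ∪ A2) (B1 ∪ B2) ?_ ?_ ?_
  · intro a' ha'
    rcases Finset.mem_union.1 ha' with ha' | ha'
    · exact sup' hC.supA (Finset.filter_subset _ _) j i a' ha'
    · exact sup' hC.supA (Finset.filter_subset _ _) j i a' ha'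
  · intro a' ha'
    rcases Finset.mem_union.1 ha' with ha' | ha'
    · exact sup' hC.supB (Finset.filter_subset _ _) j i a' ha'
    · exact sup' hC.supB (Finset.filter_subset _ _) j i a' ha'
  · intro a' ha' b' hb'
    obtain ⟨a, ha, hax, rfl⟩ : ∃ a ∈ A, a j ≠ x ∧ er i (er j a) = a' := by
      rcases Finset.mem_union.1 ha' with ha' | ha'
      · obtain ⟨a, ha, rfl⟩ := Finset.mem_image.1 ha'
        rw [Finset.mem_filter] at ha
        exact ⟨a, ha.1, ha.2.1, rfl⟩
      · obtain ⟨a, ha, rfl⟩ := Finset.mem_image.1 ha'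
        rw [Finset.mem_filter] at ha
        exact ⟨a, ha.1, ha.2.1, rfl⟩
    obtain ⟨b, hb, hbi, rfl⟩ : ∃ b ∈ B, b i ∈ pur B A i ∧ er i (er j b) = b' := by
      rcases Finset.mem_union.1 hb' with hb' | hb'
      · obtain ⟨b, hb, rfl⟩ := Finset.mem_image.1 hb'
        rw [Finset.mem_filter] at hb
        exact ⟨b, hb.1, hb.2.2, rfl⟩
      · obtain ⟨b, hb, rfl⟩ := Finset.mem_image.1 hb'
        rw [Finset.mem_filter] at hb
        exact ⟨b, hb.1, hb.2.2, rfl⟩
    exact d2 h hij (hC.dist a ha b hb) (hpure a ha hax b hb) (hpurB b hb hbi a ha)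

end R745CDX
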